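import Pool.Agent.Q72.EG.Stm

/-!
# Project EG, jobs LIFT0 and ALG: lifting of points along algebraic functions
-/

set_option autoImplicit false
set_option linter.unusedSectionVars false

namespace Pool.Agent.Q166.EG

open MvPolynomial Pool.Agent.Q72.EG

section basic

variable {τ : Type}

/-- the coefficients at `x` -/
noncomputable def ph {F : Type} [Field F] [Algebra ℂ F] (x : τ → F) : MvPolynomial τ ℂ →+* F :=
  (aeval x : MvPolynomial τ ℂ →ₐ[ℂ] F).toRingHom

/-- value of a polynomial with polynomial coefficients -/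
noncomputable def ev {F : Type} [Field F] [Algebra ℂ F] (x : τ → F) (w : F)
    (A : Polynomial (MvPolynomial τ ℂ)) : F := A.eval₂ (ph x) w

lemma ph_C (t : τ → ℂ) : ph t = (eval t : MvPolynomial τ ℂ →+* ℂ) := by
  unfold ph
  ext i
  · simp
  · simp

lemma ph_eq {F : Type} [Field F] [Algebra ℂ F] (x : τ → F) (g : MvPolynomial τ ℂ) :
    ph x g = aeval x g := rfl

lemma ev_C (t : τ → ℂ) (z : ℂ) (A : Polynomial (MvPolynomial τ ℂ)) :
    ev t z A = (A.map (eval t)).eval z := by
  rw [ev, ph_C, Polynomial.eval_map]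

lemma pt_iff {E : Type} [Field E] [Algebra ℂ E] {ξ : τ → E} {p : τ → ℂ} :
    p ∈ Pt ξ ↔ ∀ g : MvPolynomial τ ℂ, ph ξ g = 0 → ph p g = 0 := by
  rw [ph_C]
  rfl

/-- one function: a relation of minimal degree -/
structure Mn {E : Type} [Field E] [Algebra ℂ E] (ζ : τ → E) (w : E)
    (A : Polynomial (MvPolynomial τ ℂ)) : Prop where
  deg : 1 ≤ A.natDegree
  lead : ph ζ A.leadingCoeff ≠ 0
  rel : ev ζ w A = 0
  min : ∀ B : Polynomial (MvPolynomial τ ℂ), B.natDegree < A.natDegree → ev ζ w B = 0 →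
    B.map (ph ζ) = 0
  zero : w ≠ 0 → ph ζ (A.coeff 0) ≠ 0

variable {E : Type} [Field E] [Algebra ℂ E] {ζ : τ → E} {w : E}

lemma mn_exists (h : ∃ B : Polynomial (MvPolynomial τ ℂ), B.map (ph ζ) ≠ 0 ∧ ev ζ w B = 0) :
    ∃ A, Mn ζ w A := by
  classical
  have h' : ∃ n : ℕ, ∃ B : Polynomial (MvPolynomial τ ℂ), B.natDegree = n ∧ B.map (ph ζ) ≠ 0 ∧
      ev ζ w B = 0 := by
    obtain ⟨B, h1, h2⟩ := h
    exact ⟨_, B, rfl, h1, h2⟩
  obtain ⟨A, hA1, hA2, hA3⟩ := Nat.find_spec h'
  have hmin : ∀ B : Polynomial (MvPolynomial τ ℂ), B.natDegree < A.natDegree → ev ζ w B = 0 →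
      B.map (ph ζ) = 0 := by
    intro B hB hB2
    by_contra hc
    rw [hA1] at hB
    exact Nat.find_min h' hB ⟨B, rfl, hc, hB2⟩
  have hdeg : 1 ≤ A.natDegree := by
    by_contra hc
    have h0 : A.natDegree = 0 := by omega
    obtain ⟨a, rfl⟩ := Polynomial.natDegree_eq_zero.1 h0
    rw [ev, Polynomial.eval₂_C] at hA3
    rw [Polynomial.map_C, hA3, Polynomial.C_0] at hA2
    exact hA2 rfl
  refine ⟨A, hdeg, ?_, hA3, hmin, ?_⟩
  · intro hl
    have h1 : A.eraseLead.natDegree < A.natDegree := by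
      have := Polynomial.eraseLead_natDegree_le A
      omega
    have h2 : A.eraseLead + Polynomial.monomial A.natDegree A.leadingCoeff = A :=
      Polynomial.eraseLead_add_monomial_natDegree_leadingCoeff A
    have h3 : ev ζ w A.eraseLead = 0 := by
      have h4 : ev ζ w (A.eraseLead + Polynomial.monomial A.natDegree A.leadingCoeff) = 0 := by
        rw [h2]; exact hA3
      rw [ev, Polynomial.eval₂_add, Polynomial.eval₂_monomial, hl, zero_mul, add_zero] at h4
      exact h4
    have h5 := hmin _ h1 h3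
    apply hA2
    rw [← h2, Polynomial.map_add, h5, Polynomial.map_monomial, hl, map_zero, add_zero]
  · intro hw h0
    have h2 : A.divX * Polynomial.X + Polynomial.C (A.coeff 0) = A := Polynomial.divX_mul_X_add A
    have h1 : A.divX.natDegree < A.natDegree := by
      rw [Polynomial.natDegree_divX_eq_natDegree_tsub_one]
      omega
    have h3 : ev ζ w A.divX = 0 := by
      have h4 : ev ζ w (A.divX * Polynomial.X + Polynomial.C (A.coeff 0)) = 0 := by
        rw [h2]; exact hA3
      rw [ev, Polynomial.eval₂_add, Polynomial.eval₂_mul, Polynomial.eval₂_X,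
        Polynomial.eval₂_C, h0, add_zero] at h4
      exact (mul_eq_zero.1 h4).resolve_right hw
    have h5 := hmin _ h1 h3
    apply hA2
    rw [← h2, Polynomial.map_add, Polynomial.map_mul, h5, Polynomial.map_C, h0]
    simp

/-- Lifting a root. -/
lemma Mn.lift {A : Polynomial (MvPolynomial τ ℂ)} (hA : Mn ζ w A) {t : τ → ℂ} (ht : t ∈ Pt ζ)
    (hc : ph t A.leadingCoeff ≠ 0) {z : ℂ} (hz : ev t z A = 0) :
    ∀ g : Polynomial (MvPolynomial τ ℂ), ev ζ w g = 0 → ev t z g = 0 := by
  rw [pt_iff] at ht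
  have key : ∀ n : ℕ, ∀ g : Polynomial (MvPolynomial τ ℂ), g.natDegree = n → ev ζ w g = 0 →
      ev t z g = 0 := by
    intro n
    induction n using Nat.strong_induction_on with
    | _ n ih =>
      intro g hg hg0
      by_cases hlt : g.natDegree < A.natDegree
      · have h1 := hA.min g hlt hg0
        have h2 : g.map (ph t) = 0 := by
          ext i
          rw [Polynomial.coeff_map, Polynomial.coeff_zero]
          apply ht
          have := congrArg (fun p => Polynomial.coeff p i) h1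
          simpa [Polynomial.coeff_map] using this
        rw [ev, ← Polynomial.eval_map, h2, Polynomial.eval_zero]
      · have hle : A.natDegree ≤ g.natDegree := not_lt.1 hlt
        have hd := hA.deg
        set m := g.natDegree - A.natDegree with hm
        set g' := Polynomial.C A.leadingCoeff * g -
          Polynomial.monomial m g.leadingCoeff * A with hg'
        have hdeg' : g'.natDegree < n := by
          have hb : g'.natDegree ≤ g.natDegree := by
            refine (Polynomial.natDegree_sub_le _ _).trans (max_le ?_ ?_)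
            · exact Polynomial.natDegree_C_mul_le _ _
            · refine (Polynomial.natDegree_mul_le).trans ?_
              have := Polynomial.natDegree_monomial_le (R := MvPolynomial τ ℂ) g.leadingCoeff
                (m := m)
              omega
          have hcz : g'.coeff g.natDegree = 0 := by
            have h3 : g.natDegree = A.natDegree + m := by omega
            have hcg : g.coeff (A.natDegree + m) = g.leadingCoeff := by rw [← h3]; rfl
            rw [h3, hg', Polynomial.coeff_sub, Polynomial.coeff_C_mul,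
              Polynomial.coeff_monomial_mul, hcg, Polynomial.coeff_natDegree]
            ring
          rw [← hg]
          refine lt_of_le_of_ne hb fun he => ?_
          have h4 : g'.leadingCoeff = 0 := by
            rw [Polynomial.leadingCoeff, he]
            exact hcz
          have h5 : g' = 0 := Polynomial.leadingCoeff_eq_zero.1 h4
          rw [h5, Polynomial.natDegree_zero] at he
          omega
        have hev : ∀ (F : Type) [Field F] [Algebra ℂ F] (x : τ → F) (y : F),
            ev x y g' = ph x A.leadingCoeff * ev x y g -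
              ph x g.leadingCoeff * y ^ m * ev x y A := by
          intro F _ _ x y
          rw [hg', ev, Polynomial.eval₂_sub, Polynomial.eval₂_mul, Polynomial.eval₂_mul,
            Polynomial.eval₂_C, Polynomial.eval₂_monomial]
          rfl
        have h6 := ih _ hdeg' g' rfl (by rw [hev, hg0, hA.rel, mul_zero, mul_zero, sub_zero])
        rw [hev, hz, mul_zero, sub_zero] at h6
        exact (mul_eq_zero.1 h6).resolve_left hc
  exact fun g => key _ g rfl

/-- algebraic elements satisfy a relation with polynomial coefficients: clearing denominators -/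
lemma clear (p : Polynomial (IntermediateField.adjoin ℂ (Set.range ζ))) :
    ∃ (h : MvPolynomial τ ℂ) (G : Polynomial (MvPolynomial τ ℂ)), ph ζ h ≠ 0 ∧
      G.map (ph ζ) = Polynomial.C (ph ζ h) *
        p.map (algebraMap (IntermediateField.adjoin ℂ (Set.range ζ)) E) := by
  induction p using Polynomial.induction_on' with
  | add p q hp hq =>
    obtain ⟨h1, G1, a1, b1⟩ := hp
    obtain ⟨h2, G2, a2, b2⟩ := hq
    refine ⟨h1 * h2, Polynomial.C h2 * G1 + Polynomial.C h1 * G2, ?_, ?_⟩
    · rw [map_mul]; exact mul_ne_zero a1 a2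
    · rw [Polynomial.map_add, Polynomial.map_mul, Polynomial.map_mul, b1, b2, Polynomial.map_C,
        Polynomial.map_C, map_mul, Polynomial.map_add, map_mul]
      ring
  | monomial n a =>
    obtain ⟨r, s, hrs⟩ := (IntermediateField.mem_adjoin_range_iff ℂ ζ (a : E)).1 a.2
    by_cases hs : ph ζ s = 0
    · refine ⟨1, 0, by rw [map_one]; exact one_ne_zero, ?_⟩
      have ha : (a : E) = 0 := by
        rw [hrs]
        have : (aeval ζ) s = (0 : E) := hs
        rw [this, div_zero]
      rw [Polynomial.map_monomial]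
      have : algebraMap (IntermediateField.adjoin ℂ (Set.range ζ)) E a = 0 := ha
      rw [this]
      simp
    · refine ⟨s, Polynomial.monomial n r, hs, ?_⟩
      rw [Polynomial.map_monomial, Polynomial.map_monomial, Polynomial.C_mul_monomial]
      congr 1
      have : algebraMap (IntermediateField.adjoin ℂ (Set.range ζ)) E a = ph ζ r / ph ζ s := hrs
      rw [this]
      field_simp

lemma mn_alg (h : IsAlgebraic (IntermediateField.adjoin ℂ (Set.range ζ)) w) :
    ∃ A, Mn ζ w A := by
  obtain ⟨p, hp, hp2⟩ := h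
  obtain ⟨h1, G, a, b⟩ := clear p
  refine mn_exists ⟨G, ?_, ?_⟩
  · rw [b]
    refine mul_ne_zero (by rwa [Ne, Polynomial.C_eq_zero]) ?_
    rwa [Ne, Polynomial.map_eq_zero_iff (FaithfulSMul.algebraMap_injective _ _)]
  · rw [ev, ← Polynomial.eval_map, b, Polynomial.eval_mul, Polynomial.eval_map]
    have : Polynomial.eval₂ (algebraMap (IntermediateField.adjoin ℂ (Set.range ζ)) E) w p = 0 := hp2
    rw [this, mul_zero]

lemma alg_ph (g : MvPolynomial τ ℂ) :
    IsAlgebraic (IntermediateField.adjoin ℂ (Set.range ζ)) (ph ζ g) := by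
  have h1 : ph ζ g ∈ IntermediateField.adjoin ℂ (Set.range ζ) :=
    (IntermediateField.mem_adjoin_range_iff ℂ ζ _).2 ⟨g, 1, by rw [map_one, div_one]; rfl⟩
  exact isAlgebraic_algebraMap (⟨_, h1⟩ : IntermediateField.adjoin ℂ (Set.range ζ))

lemma alg_ev (h : IsAlgebraic (IntermediateField.adjoin ℂ (Set.range ζ)) w)
    (A : Polynomial (MvPolynomial τ ℂ)) :
    IsAlgebraic (IntermediateField.adjoin ℂ (Set.range ζ)) (ev ζ w A) := by
  rw [ev, Polynomial.eval₂_eq_sum_range]
  exact Finset.sum_induction _ (IsAlgebraic (IntermediateField.adjoin ℂ (Set.range ζ)))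
    (fun _ _ => IsAlgebraic.add) isAlgebraic_zero fun i _ => (alg_ph _).mul (h.pow i)

end basic

section more

variable {E : Type} [Field E] [Algebra ℂ E]

/-- rational functions -/
lemma rat {σ κ : Type} (h : MvPolynomial σ ℂ) (Fk : κ → MvPolynomial σ ℂ)
    (g : MvPolynomial (σ ⊕ κ) ℂ) : ∃ (D : ℕ) (g' : MvPolynomial σ ℂ),
    ∀ (K : Type) [Field K] [Algebra ℂ K] (x : σ → K), ph x h ≠ 0 →
      ph x g' = (ph x h) ^ D * ph (Sum.elim x (fun k => ph x (Fk k) / ph x h)) g := by
  induction g using MvPolynomial.induction_on with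
  | C c =>
    refine ⟨0, C c, fun K _ _ x _ => ?_⟩
    simp [ph]
  | add p q hp hq =>
    obtain ⟨D1, g1, h1⟩ := hp
    obtain ⟨D2, g2, h2⟩ := hq
    refine ⟨D1 + D2, h ^ D2 * g1 + h ^ D1 * g2, fun K _ _ x hx => ?_⟩
    rw [map_add, map_mul, map_mul, map_pow, map_pow, h1 K x hx, h2 K x hx, map_add]
    ring
  | mul_X p s hp =>
    obtain ⟨D1, g1, h1⟩ := hp
    rcases s with i | k
    · refine ⟨D1, g1 * X i, fun K _ _ x hx => ?_⟩
      rw [map_mul, map_mul, h1 K x hx]
      simp only [ph, AlgHom.toRingHom_eq_coe, RingHom.coe_coe, aeval_X, Sum.elim_inl]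
      ring
    · refine ⟨D1 + 1, g1 * Fk k, fun K _ _ x hx => ?_⟩
      rw [map_mul, map_mul, h1 K x hx]
      have : ph (Sum.elim x (fun k => ph x (Fk k) / ph x h)) (X (Sum.inr k)) =
          ph x (Fk k) / ph x h := by
        simp [ph]
      rw [this]
      field_simp
      ring

/-- points and rational functions -/
lemma pt_rat {σ κ : Type} {ξ : σ → E} {p : σ → ℂ} (hp : p ∈ Pt ξ) (h : MvPolynomial σ ℂ)
    (Fk : κ → MvPolynomial σ ℂ) (h1 : ph ξ h ≠ 0) (h2 : ph p h ≠ 0) :
    Sum.elim p (fun k => ph p (Fk k) / ph p h) ∈ Pt (Sum.elim ξ (fun k => ph ξ (Fk k) / ph ξ h)) := by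
  rw [pt_iff] at hp ⊢
  intro g hg
  obtain ⟨D, g', hD⟩ := rat h Fk g
  have e1 := hD E ξ h1
  rw [hg, mul_zero] at e1
  have e2 := hD ℂ p h2
  rw [hp g' e1] at e2
  exact (mul_eq_zero.1 e2.symm).resolve_left (pow_ne_zero _ h2)

/-- restriction to fewer functions -/
lemma pt_comp {σ σ' : Type} {ξ : σ → E} {p : σ → ℂ} (hp : p ∈ Pt ξ) (j : σ' → σ) :
    (fun i => p (j i)) ∈ Pt (fun i => ξ (j i)) := by
  rw [pt_iff] at hp ⊢
  intro g hg
  have h := hp (rename j g)
  simp only [ph, AlgHom.toRingHom_eq_coe, RingHom.coe_coe, aeval_rename] at h hg ⊢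
  exact h hg

/-- a polynomial with polynomial coefficients as a polynomial -/
noncomputable def emb {τ σ : Type} (j : τ → σ) (s : σ) (A : Polynomial (MvPolynomial τ ℂ)) :
    MvPolynomial σ ℂ := A.eval₂ (rename j : MvPolynomial τ ℂ →ₐ[ℂ] MvPolynomial σ ℂ).toRingHom (X s)

lemma ph_emb {τ σ : Type} (j : τ → σ) (s : σ) (A : Polynomial (MvPolynomial τ ℂ))
    {K : Type} [Field K] [Algebra ℂ K] (x : σ → K) :
    ph x (emb j s A) = ev (fun i => x (j i)) (x s) A := by
  unfold emb ev
  rw [Polynomial.hom_eval₂]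
  congr 1
  · ext i
    · simp [ph]
    · simp [ph]
  · simp [ph]

/-- the point `(t, z)` -/
def oo {F τ : Type} (z : F) (t : τ → F) : Option τ → F := fun o => o.elim z t

lemma ph_rename {τ σ : Type} (j : τ → σ) (g : MvPolynomial τ ℂ) {K : Type} [Field K]
    [Algebra ℂ K] (x : σ → K) : ph x (rename j g) = ph (fun i => x (j i)) g := by
  simp only [ph, AlgHom.toRingHom_eq_coe, RingHom.coe_coe, aeval_rename]
  rfl

lemma ev_opt {τ : Type} (g : MvPolynomial (Option τ) ℂ) {K : Type} [Field K] [Algebra ℂ K]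
    (x : τ → K) (y : K) : ev x y (optionEquivLeft ℂ τ g) = ph (oo y x) g := by
  induction g using MvPolynomial.induction_on with
  | C c => simp [optionEquivLeft_C, ev, ph]
  | add p q hp hq =>
    rw [map_add, map_add, ← hp, ← hq, ev, Polynomial.eval₂_add]
    rfl
  | mul_X p i hp =>
    rw [map_mul, map_mul, ← hp, ev, Polynomial.eval₂_mul]
    rcases i with _ | i
    · rw [optionEquivLeft_X_none, Polynomial.eval₂_X]
      simp [ph, oo, ev]
    · rw [optionEquivLeft_X_some, Polynomial.eval₂_C]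
      simp [ph, oo, ev]

/-- Lifting a root, in terms of points. -/
lemma Mn.pt {τ : Type} {ζ : τ → E} {w : E} {A : Polynomial (MvPolynomial τ ℂ)} (hA : Mn ζ w A)
    {t : τ → ℂ} (ht : t ∈ Pt ζ) (hc : ph t A.leadingCoeff ≠ 0) {z : ℂ} (hz : ev t z A = 0) :
    oo z t ∈ Pt (oo w ζ) := by
  rw [pt_iff]
  intro g hg
  have h := hA.lift ht hc hz (optionEquivLeft ℂ τ g)
  rw [ev_opt, ev_opt] at h
  exact h hg

section field

variable {τ κ : Type} {ζ : τ → E}

lemma up {θ x : E}
    (hx : x ∈ Algebra.adjoin (IntermediateField.adjoin ℂ (Set.range ζ)) {θ}) :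
    ∃ (h : MvPolynomial τ ℂ) (G : Polynomial (MvPolynomial τ ℂ)), ph ζ h ≠ 0 ∧
      ph ζ h * x = ev ζ θ G := by
  rw [Algebra.adjoin_singleton_eq_range_aeval] at hx
  obtain ⟨p, rfl⟩ := hx
  obtain ⟨h, G, h1, h2⟩ := clear p
  refine ⟨h, G, h1, ?_⟩
  rw [ev, ← Polynomial.eval_map, h2, Polynomial.eval_mul, Polynomial.eval_C, Polynomial.eval_map]
  rfl

lemma down {θ : E} {f : κ → E}
    (hx : θ ∈ Algebra.adjoin (IntermediateField.adjoin ℂ (Set.range ζ)) (Set.range f)) :
    ∃ (h : MvPolynomial τ ℂ) (g : MvPolynomial (τ ⊕ κ) ℂ), ph ζ h ≠ 0 ∧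
      ph ζ h * θ = ph (Sum.elim ζ f) g := by
  have hr : ∀ g : MvPolynomial τ ℂ, ph (Sum.elim ζ f) (rename Sum.inl g) = ph ζ g := fun g => by
    rw [ph_rename]; rfl
  induction hx using Algebra.adjoin_induction with
  | mem x hx =>
    obtain ⟨k, rfl⟩ := hx
    refine ⟨1, X (Sum.inr k), by rw [map_one]; exact one_ne_zero, ?_⟩
    rw [map_one, one_mul]
    simp [ph]
  | algebraMap a =>
    obtain ⟨r, s, hrs⟩ := (IntermediateField.mem_adjoin_range_iff ℂ ζ (a : E)).1 a.2
    by_cases hs : ph ζ s = 0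
    · refine ⟨1, 0, by rw [map_one]; exact one_ne_zero, ?_⟩
      have ha : algebraMap (IntermediateField.adjoin ℂ (Set.range ζ)) E a = 0 := by
        show (a : E) = 0
        rw [hrs]
        have : (aeval ζ) s = (0 : E) := hs
        rw [this, div_zero]
      rw [ha, mul_zero, map_zero]
    · refine ⟨s, rename Sum.inl r, hs, ?_⟩
      have : algebraMap (IntermediateField.adjoin ℂ (Set.range ζ)) E a = ph ζ r / ph ζ s := hrs
      rw [this, hr]
      field_simp
  | add x y _ _ hx hy =>
    obtain ⟨h1, g1, a1, b1⟩ := hx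
    obtain ⟨h2, g2, a2, b2⟩ := hy
    refine ⟨h1 * h2, rename Sum.inl h2 * g1 + rename Sum.inl h1 * g2, ?_, ?_⟩
    · rw [map_mul]; exact mul_ne_zero a1 a2
    · rw [map_add, map_mul, map_mul, map_mul, hr, hr, ← b1, ← b2]
      ring
  | mul x y _ _ hx hy =>
    obtain ⟨h1, g1, a1, b1⟩ := hx
    obtain ⟨h2, g2, a2, b2⟩ := hy
    refine ⟨h1 * h2, g1 * g2, ?_, ?_⟩
    · rw [map_mul]; exact mul_ne_zero a1 a2
    · rw [map_mul, map_mul, ← b1, ← b2]
      ring

lemma prim [Finite κ] {f : κ → E}
    (hf : ∀ k, IsAlgebraic (IntermediateField.adjoin ℂ (Set.range ζ)) (f k)) :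
    ∃ θ : E, IsAlgebraic (IntermediateField.adjoin ℂ (Set.range ζ)) θ ∧
      θ ∈ Algebra.adjoin (IntermediateField.adjoin ℂ (Set.range ζ)) (Set.range f) ∧
      ∀ k, f k ∈ Algebra.adjoin (IntermediateField.adjoin ℂ (Set.range ζ)) {θ} := by
  set K := IntermediateField.adjoin ℂ (Set.range ζ) with hK
  have h1 : ∀ x ∈ Set.range f, IsIntegral K x := by
    rintro _ ⟨k, rfl⟩
    exact (hf k).isIntegral
  have h2 : FiniteDimensional K (IntermediateField.adjoin K (Set.range f)) :=
    IntermediateField.finiteDimensional_adjoin h1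
  obtain ⟨α, hα⟩ := Field.exists_primitive_element K (IntermediateField.adjoin K (Set.range f))
  have h3 : (α : E) ∈ Algebra.adjoin K (Set.range f) := by
    rw [← IntermediateField.adjoin_toSubalgebra_of_isAlgebraic
      (fun x hx => (h1 x hx).isAlgebraic)]
    exact α.2
  have h4 : IsAlgebraic K α := IsAlgebraic.of_finite K α
  have h5 : IsAlgebraic K (α : E) := by
    obtain ⟨p, hp, hp2⟩ := h4
    refine ⟨p, hp, ?_⟩
    have := congrArg (fun y : IntermediateField.adjoin K (Set.range f) => (y : E)) hp2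
    simpa using this
  refine ⟨α, h5, h3, fun k => ?_⟩
  have h6 : (⟨f k, IntermediateField.subset_adjoin K _ ⟨k, rfl⟩⟩ :
      IntermediateField.adjoin K (Set.range f)) ∈ IntermediateField.adjoin K {α} := by
    rw [hα]; trivial
  have h7 : (⟨f k, IntermediateField.subset_adjoin K _ ⟨k, rfl⟩⟩ :
      IntermediateField.adjoin K (Set.range f)) ∈ Algebra.adjoin K {α} := by
    rw [← IntermediateField.adjoin_simple_toSubalgebra_of_isAlgebraic h4]
    exact h6
  rw [Algebra.adjoin_singleton_eq_range_aeval] at h7 ⊢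
  obtain ⟨p, hp⟩ := h7
  refine ⟨p, ?_⟩
  have := congrArg (fun y : IntermediateField.adjoin K (Set.range f) => (y : E)) hp
  simpa using this

end field

end more

section main

variable {E : Type} [Field E] [Algebra ℂ E] {τ κ : Type} {ζ : τ → E}

theorem alg' [Finite κ] {f : κ → E}
    (hf : ∀ k, IsAlgebraic (IntermediateField.adjoin ℂ (Set.range ζ)) (f k)) :
    ∃ (Θ : Polynomial (MvPolynomial τ ℂ)) (H : MvPolynomial τ ℂ)
      (G : κ → Polynomial (MvPolynomial τ ℂ)), 1 ≤ Θ.natDegree ∧ ph ζ H ≠ 0 ∧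
      (∀ t ∈ Pt ζ, ph t H ≠ 0 → ph t Θ.leadingCoeff ≠ 0 ∧
        ∀ z : ℂ, ev t z Θ = 0 → ev t z (Polynomial.derivative Θ) ≠ 0) ∧
      (∀ (t : τ → ℂ) (q : κ → ℂ), Sum.elim t q ∈ Pt (Sum.elim ζ f) → ph t H ≠ 0 →
        ∃ z : ℂ, ev t z Θ = 0 ∧ ∀ k, ph t H * q k = ev t z (G k)) ∧
      (∀ t ∈ Pt ζ, ph t H ≠ 0 → ∀ z : ℂ, ev t z Θ = 0 →
        Sum.elim t (fun k => ev t z (G k) / ph t H) ∈ Pt (Sum.elim ζ f)) := by
  classical
  have := Fintype.ofFinite κ
  obtain ⟨θ, hθ1, hθ2, hθ3⟩ := prim hf
  obtain ⟨h1, g1, h1a, h1b⟩ := down hθ2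
  choose hk Gk hka hkb using fun k => up (hθ3 k)
  obtain ⟨Θ, hΘ⟩ := mn_alg hθ1
  -- the derivative
  have hd : ev ζ θ (Polynomial.derivative Θ) ≠ 0 := by
    intro h0
    have hlt : (Polynomial.derivative Θ).natDegree < Θ.natDegree :=
      Polynomial.natDegree_derivative_lt (by have := hΘ.deg; omega)
    have h2 := hΘ.min _ hlt h0
    have h3 := congrArg (fun p => Polynomial.coeff p (Θ.natDegree - 1)) h2
    simp only [Polynomial.coeff_map, Polynomial.coeff_derivative, Polynomial.coeff_zero] at h3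
    have h4 : Θ.natDegree - 1 + 1 = Θ.natDegree := by have := hΘ.deg; omega
    rw [h4, Polynomial.coeff_natDegree, map_mul, map_add, map_natCast, map_one] at h3
    rcases mul_eq_zero.1 h3 with h5 | h5
    · exact hΘ.lead h5
    · have : CharZero E := charZero_of_injective_algebraMap (algebraMap ℂ E).injective
      have h6 : ((Θ.natDegree - 1 + 1 : ℕ) : E) = 0 := by push_cast; exact h5
      rw [Nat.cast_eq_zero] at h6
      omega
  obtain ⟨A2, hA2⟩ := mn_alg (alg_ev hθ1 (Polynomial.derivative Θ))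
  set H : MvPolynomial τ ℂ := Θ.leadingCoeff * A2.coeff 0 * h1 * ∏ k, hk k with hH
  have hHz : ph ζ H ≠ 0 := by
    rw [hH, map_mul, map_mul, map_mul, map_prod]
    exact mul_ne_zero (mul_ne_zero (mul_ne_zero hΘ.lead (hA2.zero hd)) h1a)
      (Finset.prod_ne_zero_iff.2 fun k _ => hka k)
  have hHt : ∀ t : τ → ℂ, ph t H ≠ 0 → ph t Θ.leadingCoeff ≠ 0 ∧ ph t (A2.coeff 0) ≠ 0 ∧
      ph t h1 ≠ 0 := by
    intro t ht
    rw [hH, map_mul, map_mul, map_mul] at ht
    have a := left_ne_zero_of_mul ht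
    have b := left_ne_zero_of_mul a
    exact ⟨left_ne_zero_of_mul b, right_ne_zero_of_mul b, right_ne_zero_of_mul a⟩
  set G : κ → Polynomial (MvPolynomial τ ℂ) := fun k =>
    Polynomial.C (Θ.leadingCoeff * A2.coeff 0 * h1 * ∏ j ∈ Finset.univ.erase k, hk j) * Gk k
    with hG
  have hGk : ∀ k, ph ζ H * f k = ev ζ θ (G k) := by
    intro k
    rw [hG, ev, Polynomial.eval₂_mul, Polynomial.eval₂_C]
    have e1 : Polynomial.eval₂ (ph ζ) θ (Gk k) = ph ζ (hk k) * f k := (hkb k).symm
    rw [e1, ← mul_assoc, ← map_mul, hH,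
      ← Finset.mul_prod_erase Finset.univ hk (Finset.mem_univ k)]
    congr 2
    ring
  refine ⟨Θ, H, G, hΘ.deg, hHz, ?_, ?_, ?_⟩
  · intro t ht htH
    obtain ⟨a, b, c⟩ := hHt t htH
    refine ⟨a, fun z hz h0 => ?_⟩
    have h2 := hΘ.lift ht a hz (A2.comp (Polynomial.derivative Θ)) (by
      rw [ev, Polynomial.eval₂_comp]
      exact hA2.rel)
    rw [ev, Polynomial.eval₂_comp] at h2
    have h3 : Polynomial.eval₂ (ph t) z (Polynomial.derivative Θ) = 0 := h0
    rw [h3, Polynomial.eval₂_at_zero] at h2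
    exact b h2
  · intro t q htq htH
    obtain ⟨a, b, c⟩ := hHt t htH
    have hr : ∀ (K : Type) [Field K] [Algebra ℂ K] (x : τ → K) (y : κ → K)
        (g : MvPolynomial τ ℂ), ph (Sum.elim x y) (rename Sum.inl g) = ph x g :=
      fun K _ _ x y g => by rw [ph_rename]; rfl
    have h2 := pt_rat (κ := Unit) htq (rename Sum.inl h1) (fun _ => g1)
      (by rw [hr]; exact h1a) (by rw [hr]; exact c)
    rw [hr, hr, ← h1b, mul_div_cancel_left₀ _ h1a] at h2
    set z := ph (Sum.elim t q) g1 / ph t h1 with hz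
    rw [pt_iff] at h2
    have key : ∀ A : Polynomial (MvPolynomial τ ℂ), ∀ (K : Type) [Field K] [Algebra ℂ K]
        (x : τ → K) (y : κ → K) (w : K), ph (Sum.elim (Sum.elim x y) (fun _ : Unit => w))
          (emb (fun i => Sum.inl (Sum.inl i)) (Sum.inr ()) A) = ev x w A := by
      intro A K _ _ x y w
      rw [ph_emb]
      rfl
    refine ⟨z, ?_, fun k => ?_⟩
    · have h3 := h2 (emb (fun i => Sum.inl (Sum.inl i)) (Sum.inr ()) Θ)
        (by rw [key]; exact hΘ.rel)
      rwa [key] at h3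
    · have h3 := h2 (rename (fun i => Sum.inl (Sum.inl i)) H * X (Sum.inl (Sum.inr k)) -
        emb (fun i => Sum.inl (Sum.inl i)) (Sum.inr ()) (G k)) (by
          rw [map_sub, key, map_mul, ph_rename]
          have : ph (Sum.elim (Sum.elim ζ f) (fun _ : Unit => θ)) (X (Sum.inl (Sum.inr k))) =
            f k := by simp [ph]
          rw [this, sub_eq_zero]
          exact hGk k)
      rw [map_sub, key, map_mul, ph_rename] at h3
      have : ph (Sum.elim (Sum.elim t q) (fun _ : Unit => z)) (X (Sum.inl (Sum.inr k))) =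
        q k := by simp [ph]
      rw [this, sub_eq_zero] at h3
      exact h3
  · intro t ht htH z hz
    obtain ⟨a, b, c⟩ := hHt t htH
    have h2 := hΘ.pt ht a hz
    have hr : ∀ (K : Type) [Field K] [Algebra ℂ K] (x : τ → K) (y : K)
        (g : MvPolynomial τ ℂ), ph (oo y x) (rename some g) = ph x g :=
      fun K _ _ x y g => by rw [ph_rename]; rfl
    have hr2 : ∀ (K : Type) [Field K] [Algebra ℂ K] (x : τ → K) (y : K)
        (A : Polynomial (MvPolynomial τ ℂ)), ph (oo y x) (emb some none A) = ev x y A :=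
      fun K _ _ x y A => by rw [ph_emb]; rfl
    have h3 := pt_rat (κ := κ) h2 (rename some H) (fun k => emb some none (G k))
      (by rw [hr]; exact hHz) (by rw [hr]; exact htH)
    simp only [hr, hr2, ← hGk] at h3
    have h4 := pt_comp h3 (Sum.elim (fun i : τ => Sum.inl (some i)) (fun k : κ => Sum.inr k))
    have e1 : (fun i : τ ⊕ κ => Sum.elim (oo θ ζ) (fun k => ph ζ H * f k / ph ζ H)
        (Sum.elim (fun i : τ => Sum.inl (some i)) (fun k : κ => Sum.inr k) i)) =
        Sum.elim ζ f := by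
      funext i
      rcases i with i | k
      · rfl
      · show ph ζ H * f k / ph ζ H = f k
        rw [mul_div_cancel_left₀ _ hHz]
    have e2 : (fun i : τ ⊕ κ => Sum.elim (oo z t) (fun k => ev t z (G k) / ph t H)
        (Sum.elim (fun i : τ => Sum.inl (some i)) (fun k : κ => Sum.inr k) i)) =
        Sum.elim t (fun k => ev t z (G k) / ph t H) := by
      funext i
      rcases i with i | k
      · rfl
      · rfl
    rw [e1, e2] at h4
    exact h4

/-- Job ALG. -/
theorem alg : S_alg := by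
  intro E _ _ τ κ _ _ ζ f hf
  obtain ⟨Θ, H, G, _, h1, h2, h3, h4⟩ := alg' hf
  refine ⟨Θ, H, G, h1, ?_, ?_, ?_⟩
  · intro t ht htH
    rw [← ph_C] at htH
    obtain ⟨a, b⟩ := h2 t ht htH
    refine ⟨by rw [← ph_C]; exact a, fun z hz => ?_⟩
    rw [← ev_C] at hz
    have := b z hz
    rw [ev_C] at this
    rwa [Polynomial.derivative_map]
  · intro t q htq htH
    rw [← ph_C] at htH
    obtain ⟨z, a, b⟩ := h3 t q htq htH
    refine ⟨z, by rw [← ev_C]; exact a, fun k => ?_⟩
    have := b k
    rwa [ev_C, ph_C] at this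
  · intro t ht htH z hz
    rw [← ph_C] at htH
    rw [← ev_C] at hz
    have := h4 t ht htH z hz
    simp only [ev_C, ph_C] at this
    exact this

/-- Job LIFT0. -/
theorem lift0 : S_lift0 := by
  intro E _ _ τ κ _ _ ζ f k0 hf
  obtain ⟨A, hA⟩ := mn_alg (hf k0)
  -- algebraicity over the larger field
  have hle : IntermediateField.adjoin ℂ (Set.range ζ) ≤
      IntermediateField.adjoin ℂ (Set.range (oo (f k0) ζ)) := by
    apply IntermediateField.adjoin.mono
    rintro _ ⟨i, rfl⟩
    exact ⟨some i, rfl⟩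
  have hf' : ∀ k, IsAlgebraic (IntermediateField.adjoin ℂ (Set.range (oo (f k0) ζ))) (f k) := by
    intro k
    obtain ⟨p, hp, hp2⟩ := hf k
    refine ⟨p.map (IntermediateField.inclusion hle).toRingHom, ?_, ?_⟩
    · rwa [Ne, Polynomial.map_eq_zero_iff (IntermediateField.inclusion hle).injective]
    · rw [Polynomial.aeval_def, Polynomial.eval₂_map]
      exact hp2
  obtain ⟨Θ, H', G, hdeg, h1, h2, h3, h4⟩ := alg' hf'
  have hw : IsAlgebraic (IntermediateField.adjoin ℂ (Set.range ζ)) (ph (oo (f k0) ζ) H') := by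
    rw [← ev_opt]
    exact alg_ev (hf k0) _
  obtain ⟨A3, hA3⟩ := mn_alg hw
  have h30 := hA3.zero h1
  refine ⟨A, A.leadingCoeff * A3.coeff 0, ?_, ⟨A.natDegree, hA.lead⟩, ?_, ?_⟩
  · have : ph ζ (A.leadingCoeff * A3.coeff 0) ≠ 0 := by
      rw [map_mul]
      exact mul_ne_zero hA.lead h30
    exact this
  · rw [Polynomial.eval_map]
    exact hA.rel
  · intro t ht htH z hz
    rw [← ph_C, map_mul] at htH
    have hc := left_ne_zero_of_mul htH
    have hc3 := right_ne_zero_of_mul htH
    rw [← ev_C] at hz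
    have hpt := hA.pt ht hc hz
    have hne : ph (oo z t) H' ≠ 0 := by
      intro h0
      have h5 := hA.lift ht hc hz (A3.comp (optionEquivLeft ℂ τ H')) (by
        rw [ev, Polynomial.eval₂_comp]
        have h6 := ev_opt H' ζ (f k0)
        rw [ev] at h6
        rw [h6]
        exact hA3.rel)
      rw [ev, Polynomial.eval₂_comp] at h5
      have h6 := ev_opt H' t z
      rw [ev] at h6
      rw [h6, h0, Polynomial.eval₂_at_zero] at h5
      exact hc3 h5
    -- a root
    obtain ⟨z', hz'⟩ : ∃ z' : ℂ, ev (oo z t) z' Θ = 0 := by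
      have hl := (h2 _ hpt hne).1
      have hd : (Θ.map (ph (oo z t))).degree ≠ 0 := by
        rw [Polynomial.degree_map_eq_of_leadingCoeff_ne_zero _ hl]
        intro h5
        have := Polynomial.natDegree_eq_zero_iff_degree_le_zero.2 h5.le
        omega
      obtain ⟨z', hz'⟩ := IsAlgClosed.exists_root _ hd
      refine ⟨z', ?_⟩
      rw [ev, ← Polynomial.eval_map]
      exact hz'
    have h5 := h4 _ hpt hne z' hz'
    set q : κ → ℂ := fun k => ev (oo z t) z' (G k) / ph (oo z t) H' with hq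
    have hqz : q k0 = z := by
      rw [pt_iff] at h5
      have h6 := h5 (X (Sum.inr k0) - X (Sum.inl none)) (by simp [ph, oo])
      have h7 : q k0 - z = 0 := by
        simpa [ph, oo] using h6
      exact sub_eq_zero.1 h7
    have h6 := pt_comp h5 (Sum.elim (fun i : τ => Sum.inl (some i)) (fun k : κ => Sum.inr k))
    have e1 : (fun i : τ ⊕ κ => Sum.elim (oo (f k0) ζ) f
        (Sum.elim (fun i : τ => Sum.inl (some i)) (fun k : κ => Sum.inr k) i)) =
        Sum.elim ζ f := by
      funext i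
      rcases i with i | k
      · rfl
      · rfl
    rw [e1] at h6
    exact ⟨_, h6, fun i => rfl, hqz⟩

end main

end Pool.Agent.Q166.EG
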